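import Pool.Agent.MP_6194a9_an.Main

/-!
# A holomorphic partially hyperbolic diffeomorphism whose center distribution is nowhere `C^1`

The example: `M` is the quotient of `GL(2, ℂ) × M(2, ℂ) × ℂ` by a discrete group built from the
norm one group `G` of the quaternion order over `ℤ[√-7]`, acting by
`(y, X, s) ↦ (2 ^ k g y, g X g* + s c(g) + l, s + m)`, where `c` is an integral cocycle of `G` with
values in hermitian matrices which is not a coboundary; `f (y, X, s) = (y diag(2, 1), X, s)`.
-/

open Bundle
open scoped Manifold ContDiff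

namespace Pool.Agent.Results.MP_6194a9_an.NowhereC1Center

/-- There is a compact connected complex manifold `M` (of class `C^ω` over `ℂ`, modelled on a
finite-dimensional complex normed space without boundary), a biholomorphism `f` of `M`, and a
splitting `TM = Es + Ec + Eu` of the real tangent bundle which is a partially hyperbolic splitting
of `f` for every continuous Riemannian metric (and smooth Riemannian metrics exist), such that near
no point of `M` the center distribution `Ec` is spanned by vector fields of class `C^1`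
(in particular it is nowhere real analytic). -/
theorem result :
    ∃ (E : Type) (_ : NormedAddCommGroup E) (_ : NormedSpace ℂ E) (_ : FiniteDimensional ℂ E)
      (M : Type) (_ : TopologicalSpace M) (_ : ChartedSpace E M)
      (_ : IsManifold 𝓘(ℂ, E) ω M) (_ : IsManifold 𝓘(ℝ, E) ω M)
      (_ : CompactSpace M) (_ : T2Space M) (_ : ConnectedSpace M)
      (f : Diffeomorph 𝓘(ℂ, E) 𝓘(ℂ, E) M M ω)
      (Es Ec Eu : ∀ x : M, Submodule ℝ (TangentSpace 𝓘(ℝ, E) x)),
      Nonempty (ContMDiffRiemannianMetric 𝓘(ℝ, E) ∞ E (fun x : M => TangentSpace 𝓘(ℝ, E) x)) ∧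
      (∀ g : ContinuousRiemannianMetric E (fun x : M => TangentSpace 𝓘(ℝ, E) x),
        HolPH.IsPHSplitting g f Es Ec Eu) ∧
      ∀ (p : M) (n : WithTop ℕ∞), 1 ≤ n → ¬ HolPH.SpannedNear n Ec p := by
  refine ⟨MP6194.Mod, inferInstance, inferInstance, inferInstance, MP6194.MM, inferInstance,
    inferInstance, MP6194.isManifoldC, MP6194.isManifoldR, inferInstance, inferInstance,
    inferInstance, MP6194.fD, MP6194.Dist MP6194.Cs, MP6194.Dist MP6194.Cc,
    MP6194.Dist MP6194.Cu, ?_, ?_, ?_⟩
  · exact MP6194M.exists_metric
  · intro g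
    exact
      { continuous := fun p => ⟨MP6194.spanned_Dist _ p, MP6194.spanned_Dist _ p,
          MP6194.spanned_Dist _ p⟩
        direct := fun x => MP6194.internal_Dist x
        nonzero := fun x => ⟨MP6194.Dist_ne_bot MP6194.Cs_ne x, MP6194.Dist_ne_bot MP6194.Cc_ne x,
          MP6194.Dist_ne_bot MP6194.Cu_ne x⟩
        invariant := fun x => ⟨MP6194.invariant_Dist MP6194.inv_Cs x,
          MP6194.invariant_Dist MP6194.inv_Cc x, MP6194.invariant_Dist MP6194.inv_Cu x⟩
        domination := MP6194.domination g }
  · rintro p n hn ⟨s, hs, k, X, hX, hspan⟩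
    exact MP6194.not_C1 p ⟨s, hs, k, X, fun i => (hX i).of_le hn, hspan⟩

end Pool.Agent.Results.MP_6194a9_an.NowhereC1Center
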